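import Pool.Agent.Helper47.RFn.Mod

/-! Project RFn, packet MOD: the concrete basic algebra. -/

open Finset Pool.Agent.Helper47.RFn

namespace Pool.Agent.Helper49.RFn

/-! ## Antisymmetric matrices -/

theorem sk_Sk {n : ℕ} (a b : Ix n) : Sk (sk a b) := by
  intro c k
  unfold sk
  ring

theorem zero_Sk {n : ℕ} : Sk (fun _ _ => 0 : Ix n → Ix n → ℝ) := by
  intro a b
  simp

theorem sum_dl {n : ℕ} (j : Ix n) (M : Ix n → ℝ) : ∑ c, (if j = c then (1 : ℝ) else 0) * M c = M j := by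
  simp

theorem sum_dl' {n : ℕ} (j : Ix n) (M : Ix n → ℝ) : ∑ c, (if c = j then (1 : ℝ) else 0) * M c = M j := by
  simp

theorem sk_mul {n : ℕ} (i j a : Ix n) (M : Ix n → ℝ) : ∑ c, sk i j a c * M c =
    (if j = a then 1 else 0) * M i - (if i = a then 1 else 0) * M j := by
  have h : ∀ c, sk i j a c * M c = (if j = a then (1 : ℝ) else 0) * ((if i = c then (1 : ℝ) else 0) * M c)
      - (if i = a then (1 : ℝ) else 0) * ((if j = c then (1 : ℝ) else 0) * M c) := by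
    intro c
    unfold sk
    ring
  rw [Finset.sum_congr rfl fun c _ => h c, Finset.sum_sub_distrib, ← Finset.mul_sum,
    ← Finset.mul_sum, sum_dl, sum_dl]

theorem mul_sk {n : ℕ} (i j b : Ix n) (M : Ix n → ℝ) : ∑ c, M c * sk i j c b =
    (if i = b then 1 else 0) * M j - (if j = b then 1 else 0) * M i := by
  have h : ∀ c, M c * sk i j c b = (if i = b then (1 : ℝ) else 0) * ((if j = c then (1 : ℝ) else 0) * M c)
      - (if j = b then (1 : ℝ) else 0) * ((if i = c then (1 : ℝ) else 0) * M c) := by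
    intro c
    unfold sk
    ring
  rw [Finset.sum_congr rfl fun c _ => h c, Finset.sum_sub_distrib, ← Finset.mul_sum,
    ← Finset.mul_sum, sum_dl, sum_dl]

theorem sk_comm {n : ℕ} (i j k l a b : Ix n) :
    ∑ c, (sk i j a c * sk k l c b - sk k l a c * sk i j c b) =
      - ((if j = k then 1 else 0) * sk i l a b - (if i = k then 1 else 0) * sk j l a b
        - (if j = l then 1 else 0) * sk i k a b + (if i = l then 1 else 0) * sk j k a b) := by
  have e1 : (if l = i then (1 : ℝ) else 0) = if i = l then 1 else 0 := by simp only [eq_comm]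
  have e2 : (if k = i then (1 : ℝ) else 0) = if i = k then 1 else 0 := by simp only [eq_comm]
  have e3 : (if l = j then (1 : ℝ) else 0) = if j = l then 1 else 0 := by simp only [eq_comm]
  have e4 : (if k = j then (1 : ℝ) else 0) = if j = k then 1 else 0 := by simp only [eq_comm]
  rw [Finset.sum_sub_distrib, sk_mul, sk_mul]
  unfold sk
  rw [e1, e2, e3, e4]
  ring

/-! ## Linearity of the derivative in the field -/

/-- the space of fields -/
abbrev VF (n : ℕ) := (Ix n → Ix n → ℝ) × (Ix n → Ix n → ℝ) × (Ix n → Ix n → ℝ) × ℝ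

theorem fld_lin {n : ℕ} (p : WW n) (v w : VF n) (c : ℝ) :
    fld (v + c • w).1 (v + c • w).2.1 (v + c • w).2.2.1 (v + c • w).2.2.2 p =
      fld v.1 v.2.1 v.2.2.1 v.2.2.2 p + c • fld w.1 w.2.1 w.2.2.1 w.2.2.2 p := by
  unfold fld
  refine Prod.ext ?_ (Prod.ext ?_ ?_)
  · ext i
    simp only [Prod.fst_add, Prod.smul_fst, Pi.add_apply, Pi.smul_apply, smul_eq_mul,
      PiLp.add_apply, PiLp.smul_apply, Finset.mul_sum]
    rw [← Finset.sum_add_distrib]
    refine Finset.sum_congr rfl fun j _ => ?_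
    ring
  · ext a b
    simp only [Prod.snd_add, Prod.smul_snd, Prod.fst_add, Prod.smul_fst, Pi.add_apply,
      Pi.smul_apply, smul_eq_mul, Finset.mul_sum]
    rw [← Finset.sum_add_distrib]
    refine Finset.sum_congr rfl fun j _ => ?_
    ring
  · rfl

/-- the derivative as a linear map of the field -/
noncomputable def Dl {n : ℕ} {T : ℝ} (f : ZZ n × TI T → ℝ) : VF n →ₗ[ℝ] (ZZ n × TI T → ℝ) where
  toFun v := derf v.1 v.2.1 v.2.2.1 v.2.2.2 f
  map_add' v w := by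
    funext p
    have h := fld_lin (emW p) v w 1
    rw [one_smul, one_smul] at h
    unfold derf
    rw [h, map_add]
    rfl
  map_smul' c v := by
    funext p
    have h := fld_lin (emW p) 0 v c
    have h0 := fld_lin (emW p) 0 0 1
    rw [one_smul, one_smul, add_zero] at h0
    have h1 : fld (0 : VF n).1 (0 : VF n).2.1 (0 : VF n).2.2.1 (0 : VF n).2.2.2 (emW p) = 0 :=
      left_eq_add.1 h0
    rw [zero_add, h1, zero_add] at h
    unfold derf
    rw [h, map_smul]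
    rfl

theorem Dl_apply {n : ℕ} {T : ℝ} (f : ZZ n × TI T → ℝ) (η ζ ξ : Ix n → Ix n → ℝ) (d : ℝ) :
    derf η ζ ξ d f = Dl f (η, ζ, ξ, d) := rfl

theorem Dl_congr {n : ℕ} {T : ℝ} (f : ZZ n × TI T → ℝ) (v w : VF n) (p : ZZ n × TI T)
    (h : fld v.1 v.2.1 v.2.2.1 v.2.2.2 (emW p) = fld w.1 w.2.1 w.2.2.1 w.2.2.2 (emW p)) :
    Dl f v p = Dl f w p := by
  change fderiv ℝ (exf f) (emW p) _ = fderiv ℝ (exf f) (emW p) _
  rw [h]

theorem derf_zero {n : ℕ} {T : ℝ} (f : ZZ n × TI T → ℝ) :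
    derf (fun _ _ => 0) (fun _ _ => 0) (fun _ _ => 0) 0 f = 0 := by
  have h : Dl f 0 = 0 := map_zero _
  exact h

/-! ## The algebra -/

section
variable (h2 : Goal_MA2)

/-- the algebra -/
def BB (n : ℕ) (T : ℝ) : Subalgebra ℝ (ZZ n × TI T → ℝ) where
  carrier := {f | IsB f}
  mul_mem' hf hg := ((h2 n T).2.2.1 _ _ hf hg).2
  add_mem' hf hg := ((h2 n T).2.2.1 _ _ hf hg).1
  algebraMap_mem' c := (h2 n T).2.1 c

include h2 in
theorem derf_isB {n : ℕ} {T : ℝ} {η ζ ξ : Ix n → Ix n → ℝ} (d : ℝ) (hη : Sk η) (hζ : Sk ζ)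
    (hξ : Sk ξ) {f : ZZ n × TI T → ℝ} (hf : IsB f) : IsB (derf η ζ ξ d f) := by
  obtain ⟨O, F, h⟩ := hf
  exact ⟨O, _, ((h2 n T).1 η ζ ξ d hη hζ hξ f O F h).2⟩

/-- the derivation along a field -/
noncomputable def dB {n : ℕ} {T : ℝ} (η ζ ξ : Ix n → Ix n → ℝ) (d : ℝ) (hη : Sk η) (hζ : Sk ζ)
    (hξ : Sk ξ) : Derivation ℝ (BB h2 n T) (BB h2 n T) where
  toFun f := ⟨derf η ζ ξ d f.1, derf_isB h2 d hη hζ hξ f.2⟩
  map_add' f g := Subtype.ext (((h2 n T).2.2.2.2.1 η ζ ξ d hη hζ hξ).2.1 f.1 g.1 f.2 g.2).1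
  map_smul' c f := Subtype.ext (((h2 n T).2.2.2.2.1 η ζ ξ d hη hζ hξ).2.2.1 c f.1 f.2)
  map_one_eq_zero' := Subtype.ext (((h2 n T).2.2.2.2.1 η ζ ξ d hη hζ hξ).1 1)
  leibniz' f g := Subtype.ext (((h2 n T).2.2.2.2.1 η ζ ξ d hη hζ hξ).2.1 f.1 g.1 f.2 g.2).2

/-- evaluation -/
def evB (n : ℕ) (T : ℝ) (z : ZZ n) (t : TI T) : BB h2 n T →ₐ[ℝ] ℝ where
  toFun f := f.1 (z, t)
  map_one' := rfl
  map_mul' _ _ := rfl
  map_zero' := rfl
  map_add' _ _ := rfl
  commutes' _ := rfl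

variable (h4 : Goal_MA4) (h5 : Goal_MA5)

/-- the model -/
noncomputable def mdl (n : ℕ) (T : ℝ) : Mod n T where
  Z := ZZ n
  B := BB h2 n T
  cptZ := ((h4 n T _ ((h2 n T).2.1 0)).2.2.2.2).1
  neZ := ((h4 n T _ ((h2 n T).2.1 0)).2.2.2.2).2
  ev := evB h2 n T
  L i j := dB h2 (sk i j) (fun _ _ => 0) (fun _ _ => 0) 0 (sk_Sk i j) zero_Sk zero_Sk
  V a b := dB h2 (fun _ _ => 0) (sk a b) (fun _ _ => 0) 0 zero_Sk (sk_Sk a b) zero_Sk
  U c d := dB h2 (fun _ _ => 0) (fun _ _ => 0) (sk c d) 0 zero_Sk zero_Sk (sk_Sk c d)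
  Dt := dB h2 (fun _ _ => 0) (fun _ _ => 0) (fun _ _ => 0) 1 zero_Sk zero_Sk zero_Sk
  u a b := ⟨fun p => (p.1.2 : Ix n → Ix n → ℝ) a b, ((h5 n T).1 a b).1⟩
  n0 i := ⟨fun p => (p.1.1 : EE n) i, ((h5 n T).2.2.1 i).1⟩
  tt := ⟨fun p => (p.2 : ℝ), (h5 n T).2.1.1⟩
  pt z := z.1
  fr z := z.2

/-- a commutator of derivatives -/
theorem der_comm (h3 : Goal_MA3) {n : ℕ} {T : ℝ} {η ζ ξ η' ζ' ξ' : Ix n → Ix n → ℝ} (d d' : ℝ)
    (hη : Sk η) (hζ : Sk ζ) (hξ : Sk ξ) (hη' : Sk η') (hζ' : Sk ζ') (hξ' : Sk ξ')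
    {f : ZZ n × TI T → ℝ} (hf : IsB f)
    (e1 : ∀ a b, ∑ c, (η a c * η' c b - η' a c * η c b) = 0)
    (e2 : ∀ a b, ∑ c, (ζ a c * ζ' c b - ζ' a c * ζ c b) = 0)
    (e3 : ∀ a b, ∑ c, (ξ a c * ξ' c b - ξ' a c * ξ c b) = 0) :
    derf η ζ ξ d (derf η' ζ' ξ' d' f) = derf η' ζ' ξ' d' (derf η ζ ξ d f) := by
  have h := h3 n T η ζ ξ η' ζ' ξ' d d' hη hζ hξ hη' hζ' hξ' f hf
  have e1' : (fun a b => - ∑ c, (η a c * η' c b - η' a c * η c b)) = fun _ _ => 0 := by
    funext a b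
    rw [e1, neg_zero]
  have e2' : (fun a b => - ∑ c, (ζ a c * ζ' c b - ζ' a c * ζ c b)) = fun _ _ => 0 := by
    funext a b
    rw [e2, neg_zero]
  have e3' : (fun a b => ∑ c, (ξ a c * ξ' c b - ξ' a c * ξ c b)) = fun _ _ => 0 := by
    funext a b
    rw [e3]
  rw [e1', e2', e3', derf_zero] at h
  exact sub_eq_zero.1 h

theorem zc {n : ℕ} (M : Ix n → Ix n → ℝ) (a b : Ix n) :
    ∑ c, ((0 : ℝ) * M c b - M a c * 0) = 0 := by simp

theorem cz {n : ℕ} (M : Ix n → Ix n → ℝ) (a b : Ix n) :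
    ∑ c, (M a c * 0 - (0 : ℝ) * M c b) = 0 := by simp

theorem zz {n : ℕ} : ∑ _c : Ix n, ((0 : ℝ) * 0 - 0 * 0) = 0 := by simp

/-- the combination of basic fields in the commutator relations -/
theorem comb {n : ℕ} {T : ℝ} (f : ZZ n × TI T → ℝ) (i j k l : Ix n) (X : (Ix n → Ix n → ℝ) →ₗ[ℝ] VF n) :
    Dl f (X (fun a b => ((if j = k then 1 else 0) * sk i l a b - (if i = k then 1 else 0) * sk j l a b
        - (if j = l then 1 else 0) * sk i k a b + (if i = l then 1 else 0) * sk j k a b))) =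
      (if j = k then (1 : ℝ) else 0) • Dl f (X (sk i l)) - (if i = k then (1 : ℝ) else 0) • Dl f (X (sk j l))
        - (if j = l then (1 : ℝ) else 0) • Dl f (X (sk i k))
        + (if i = l then (1 : ℝ) else 0) • Dl f (X (sk j k)) := by
  have h : (fun a b => ((if j = k then (1 : ℝ) else 0) * sk i l a b - (if i = k then 1 else 0) * sk j l a b
        - (if j = l then 1 else 0) * sk i k a b + (if i = l then 1 else 0) * sk j k a b)) =
      (if j = k then (1 : ℝ) else 0) • sk i l - (if i = k then (1 : ℝ) else 0) • sk j l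
        - (if j = l then (1 : ℝ) else 0) • sk i k + (if i = l then (1 : ℝ) else 0) • sk j k := rfl
  rw [h, map_add, map_sub, map_sub, map_smul, map_smul, map_smul, map_smul, map_add, map_sub,
    map_sub, map_smul, map_smul, map_smul, map_smul]

/-- the Kronecker symbol acts as a number -/
theorem dl_mul {n : ℕ} {T : ℝ} (P : BA n T) (i j : Ix n) (g : P.B) :
    P.dl i j * g = (if i = j then (1 : ℝ) else 0) • g := by
  unfold BA.dl
  by_cases h : i = j
  · rw [if_pos h, if_pos h, one_smul, one_mul]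
  · rw [if_neg h, if_neg h, zero_smul, zero_mul]

/-- the field acting on the point -/
def XL {n : ℕ} : (Ix n → Ix n → ℝ) →ₗ[ℝ] VF n := LinearMap.inl ℝ _ _

/-- the field acting on the frame from the left -/
def XV {n : ℕ} : (Ix n → Ix n → ℝ) →ₗ[ℝ] VF n := (LinearMap.inr ℝ _ _).comp (LinearMap.inl ℝ _ _)

/-- the field acting on the frame from the right -/
def XU {n : ℕ} : (Ix n → Ix n → ℝ) →ₗ[ℝ] VF n :=
  (LinearMap.inr ℝ _ _).comp ((LinearMap.inr ℝ _ _).comp (LinearMap.inl ℝ _ _))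

theorem LL_aux (h3 : Goal_MA3) {n : ℕ} {T : ℝ} {f : ZZ n × TI T → ℝ} (hf : IsB f)
    (i j k l : Ix n) :
    derf (sk i j) (fun _ _ => 0) (fun _ _ => 0) 0 (derf (sk k l) (fun _ _ => 0) (fun _ _ => 0) 0 f)
      - derf (sk k l) (fun _ _ => 0) (fun _ _ => 0) 0
        (derf (sk i j) (fun _ _ => 0) (fun _ _ => 0) 0 f) =
      (if j = k then (1 : ℝ) else 0) • Dl f (XL (sk i l)) - (if i = k then (1 : ℝ) else 0) • Dl f (XL (sk j l))
        - (if j = l then (1 : ℝ) else 0) • Dl f (XL (sk i k))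
        + (if i = l then (1 : ℝ) else 0) • Dl f (XL (sk j k)) := by
  rw [h3 n T _ _ _ _ _ _ 0 0 (sk_Sk i j) zero_Sk zero_Sk (sk_Sk k l) zero_Sk zero_Sk f hf,
    ← comb f i j k l XL]
  have e1 : (fun a b => - ∑ c, (sk i j a c * sk k l c b - sk k l a c * sk i j c b)) =
      fun a b => ((if j = k then (1 : ℝ) else 0) * sk i l a b - (if i = k then 1 else 0) * sk j l a b
        - (if j = l then 1 else 0) * sk i k a b + (if i = l then 1 else 0) * sk j k a b) := by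
    funext a b
    rw [sk_comm, neg_neg]
  have e2 : (fun _ _ : Ix n => - ∑ _c : Ix n, ((0 : ℝ) * 0 - 0 * 0)) = fun _ _ => 0 := by
    funext a b
    rw [zz, neg_zero]
  have e3 : (fun _ _ : Ix n => ∑ _c : Ix n, ((0 : ℝ) * 0 - 0 * 0)) = fun _ _ => 0 := by
    funext a b
    rw [zz]
  rw [e1, e2, e3]
  rfl

theorem VV_aux (h3 : Goal_MA3) {n : ℕ} {T : ℝ} {f : ZZ n × TI T → ℝ} (hf : IsB f)
    (i j k l : Ix n) :
    derf (fun _ _ => 0) (sk i j) (fun _ _ => 0) 0 (derf (fun _ _ => 0) (sk k l) (fun _ _ => 0) 0 f)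
      - derf (fun _ _ => 0) (sk k l) (fun _ _ => 0) 0
        (derf (fun _ _ => 0) (sk i j) (fun _ _ => 0) 0 f) =
      (if j = k then (1 : ℝ) else 0) • Dl f (XV (sk i l)) - (if i = k then (1 : ℝ) else 0) • Dl f (XV (sk j l))
        - (if j = l then (1 : ℝ) else 0) • Dl f (XV (sk i k))
        + (if i = l then (1 : ℝ) else 0) • Dl f (XV (sk j k)) := by
  rw [h3 n T _ _ _ _ _ _ 0 0 zero_Sk (sk_Sk i j) zero_Sk zero_Sk (sk_Sk k l) zero_Sk f hf,
    ← comb f i j k l XV]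
  have e1 : (fun a b => - ∑ c, (sk i j a c * sk k l c b - sk k l a c * sk i j c b)) =
      fun a b => ((if j = k then (1 : ℝ) else 0) * sk i l a b - (if i = k then 1 else 0) * sk j l a b
        - (if j = l then 1 else 0) * sk i k a b + (if i = l then 1 else 0) * sk j k a b) := by
    funext a b
    rw [sk_comm, neg_neg]
  have e2 : (fun _ _ : Ix n => - ∑ _c : Ix n, ((0 : ℝ) * 0 - 0 * 0)) = fun _ _ => 0 := by
    funext a b
    rw [zz, neg_zero]
  have e3 : (fun _ _ : Ix n => ∑ _c : Ix n, ((0 : ℝ) * 0 - 0 * 0)) = fun _ _ => 0 := by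
    funext a b
    rw [zz]
  rw [e1, e2, e3]
  rfl

theorem UU_aux (h3 : Goal_MA3) {n : ℕ} {T : ℝ} {f : ZZ n × TI T → ℝ} (hf : IsB f)
    (i j k l : Ix n) :
    derf (fun _ _ => 0) (fun _ _ => 0) (sk i j) 0 (derf (fun _ _ => 0) (fun _ _ => 0) (sk k l) 0 f)
      - derf (fun _ _ => 0) (fun _ _ => 0) (sk k l) 0
        (derf (fun _ _ => 0) (fun _ _ => 0) (sk i j) 0 f) =
      - ((if j = k then (1 : ℝ) else 0) • Dl f (XU (sk i l)) - (if i = k then (1 : ℝ) else 0) • Dl f (XU (sk j l))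
        - (if j = l then (1 : ℝ) else 0) • Dl f (XU (sk i k))
        + (if i = l then (1 : ℝ) else 0) • Dl f (XU (sk j k))) := by
  rw [h3 n T _ _ _ _ _ _ 0 0 zero_Sk zero_Sk (sk_Sk i j) zero_Sk zero_Sk (sk_Sk k l) f hf,
    ← comb f i j k l XU, ← map_neg, ← map_neg]
  have e1 : (fun a b => ∑ c, (sk i j a c * sk k l c b - sk k l a c * sk i j c b)) =
      - fun a b => ((if j = k then (1 : ℝ) else 0) * sk i l a b - (if i = k then 1 else 0) * sk j l a b
        - (if j = l then 1 else 0) * sk i k a b + (if i = l then 1 else 0) * sk j k a b) := by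
    funext a b
    exact sk_comm i j k l a b
  have e2 : (fun _ _ : Ix n => - ∑ _c : Ix n, ((0 : ℝ) * 0 - 0 * 0)) = fun _ _ => 0 := by
    funext a b
    rw [zz, neg_zero]
  rw [e1, e2]
  rfl


end

theorem anti_aux {n : ℕ} {T : ℝ} (f : ZZ n × TI T → ℝ) (i j : Ix n)
    (X : (Ix n → Ix n → ℝ) →ₗ[ℝ] VF n) : Dl f (X (sk i j)) = - Dl f (X (sk j i)) := by
  rw [← map_neg, ← map_neg]
  congr 2
  funext a b
  change sk i j a b = - sk j i a b
  unfold sk
  ring

theorem e_apply {n : ℕ} {T : ℝ} (P : BA n T) (i : Ix n) (f : P.B) :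
    P.e i f = ∑ j, P.n0 j * P.L j i f := by
  unfold BA.e
  rw [← Derivation.coeFnAddMonoidHom_apply, map_sum, Finset.sum_apply]
  rfl

theorem fld_XL {n : ℕ} (p : WW n) (M M' : Ix n → Ix n → ℝ)
    (h : ∀ i, ∑ j, M i j * p.1 j = ∑ j, M' i j * p.1 j) :
    fld (XL M).1 (XL M).2.1 (XL M).2.2.1 (XL M).2.2.2 p =
      fld (XL M').1 (XL M').2.1 (XL M').2.2.1 (XL M').2.2.2 p := by
  unfold fld
  refine Prod.ext ?_ rfl
  ext i
  exact h i

theorem fld_XU {n : ℕ} (p : WW n) (M M' : Ix n → Ix n → ℝ)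
    (h : ∀ a b, ∑ c, p.2.1 a c * M c b = ∑ c, M' a c * p.2.1 c b) :
    fld (XU M).1 (XU M).2.1 (XU M).2.2.1 (XU M).2.2.2 p =
      fld (XV M').1 (XV M').2.1 (XV M').2.2.1 (XV M').2.2.2 p := by
  unfold fld
  refine Prod.ext rfl (Prod.ext ?_ rfl)
  funext a b
  have h1 : ∑ c, ((XU M).2.1 a c * p.2.1 c b + p.2.1 a c * (XU M).2.2.1 c b) =
      ∑ c, p.2.1 a c * M c b := by
    refine Finset.sum_congr rfl fun c _ => ?_
    change (0 : ℝ) * p.2.1 c b + p.2.1 a c * M c b = _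
    rw [zero_mul, zero_add]
  have h2 : ∑ c, ((XV M').2.1 a c * p.2.1 c b + p.2.1 a c * (XV M').2.2.1 c b) =
      ∑ c, M' a c * p.2.1 c b := by
    refine Finset.sum_congr rfl fun c _ => ?_
    change M' a c * p.2.1 c b + p.2.1 a c * (0 : ℝ) = _
    rw [mul_zero, add_zero]
  exact h1.trans ((h a b).trans h2.symm)

theorem sum_sq {n : ℕ} (z : ZZ n) : ∑ i, (z.1 : EE n) i ^ 2 = 1 := by
  have h : ‖(z.1 : EE n)‖ = 1 := by
    have := z.1.2
    rwa [mem_sphere_zero_iff_norm] at this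
  have h1 := EuclideanSpace.norm_sq_eq (z.1 : EE n)
  rw [h] at h1
  simp only [Real.norm_eq_abs, sq_abs, one_pow] at h1
  exact h1.symm

theorem Le_aux {n : ℕ} {T : ℝ} (f : ZZ n × TI T → ℝ) (i j : Ix n) (p : ZZ n × TI T) :
    Dl f (XL (sk i j)) p =
      (p.1.1 : EE n) i * ∑ k, (p.1.1 : EE n) k * Dl f (XL (sk k j)) p -
      (p.1.1 : EE n) j * ∑ k, (p.1.1 : EE n) k * Dl f (XL (sk k i)) p := by
  obtain ⟨x, hx⟩ : ∃ x : Ix n → ℝ, x = fun i => (p.1.1 : EE n) i := ⟨_, rfl⟩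
  have hs : ∑ k, x k ^ 2 = 1 := by rw [hx]; exact sum_sq p.1
  have e1 : (p.1.1 : EE n) i * ∑ k, (p.1.1 : EE n) k * Dl f (XL (sk k j)) p -
      (p.1.1 : EE n) j * ∑ k, (p.1.1 : EE n) k * Dl f (XL (sk k i)) p =
      Dl f (XL (x i • (∑ k, x k • sk k j) - x j • ∑ k, x k • sk k i)) p := by
    simp only [map_sub, map_smul, map_sum, Pi.sub_apply, Pi.smul_apply, Finset.sum_apply,
      smul_eq_mul, hx]
  rw [e1]
  refine Dl_congr f _ _ p (fld_XL (emW p) _ _ fun a => ?_)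
  have h1 : ∀ l, (x i • (∑ k, x k • sk k j) - x j • ∑ k, x k • sk k i) a l =
      x i * ∑ k, x k * sk k j a l - x j * ∑ k, x k * sk k i a l := by
    intro l
    simp only [Pi.sub_apply, Pi.smul_apply, Finset.sum_apply, smul_eq_mul]
  have h2 : ∀ j' : Ix n, ∑ l, (∑ k, x k * sk k j' a l) * x l =
      (if j' = a then 1 else 0) - x a * x j' := by
    intro j'
    have h3 : ∑ l, (∑ k, x k * sk k j' a l) * x l = ∑ k, x k * ∑ l, sk k j' a l * x l := by
      simp only [Finset.sum_mul, Finset.mul_sum]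
      rw [Finset.sum_comm]
      exact Finset.sum_congr rfl fun k _ => Finset.sum_congr rfl fun l _ => by ring
    rw [h3]
    have h4 : ∀ k, x k * ∑ l, sk k j' a l * x l =
        (if j' = a then 1 else 0) * x k ^ 2 - (if k = a then (1 : ℝ) else 0) * (x k * x j') := by
      intro k
      rw [sk_mul]
      ring
    rw [Finset.sum_congr rfl fun k _ => h4 k, Finset.sum_sub_distrib, ← Finset.mul_sum, hs,
      sum_dl' a (fun k => x k * x j'), mul_one]
  have h5 : ∀ i', (emW p).1 i' = x i' := fun i' => by rw [hx]; rfl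
  have h6 : ∑ l, sk i j a l * (emW p).1 l = ∑ l, sk i j a l * x l :=
    Finset.sum_congr rfl fun l _ => by rw [h5]
  have h7 : ∑ l, (x i • (∑ k, x k • sk k j) - x j • ∑ k, x k • sk k i) a l * (emW p).1 l =
      x i * ∑ l, (∑ k, x k * sk k j a l) * x l - x j * ∑ l, (∑ k, x k * sk k i a l) * x l := by
    rw [Finset.mul_sum, Finset.mul_sum, ← Finset.sum_sub_distrib]
    refine Finset.sum_congr rfl fun l _ => ?_
    rw [h1, h5]
    ring
  rw [h6, h7, sk_mul, h2, h2]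
  ring

theorem utu_aux {n : ℕ} {w : Ix n → Ix n → ℝ} (hw : w ∈ OO n) (a b : Ix n) :
    ∑ c, w c a * w c b = if a = b then 1 else 0 := by
  have h1 : (Matrix.of w) * (Matrix.of w).transpose = 1 := by
    ext i j
    rw [Matrix.mul_apply, Matrix.one_apply]
    exact hw i j
  have h2 := mul_eq_one_comm.1 h1
  have h3 := congrFun (congrFun h2 a) b
  rw [Matrix.mul_apply, Matrix.one_apply] at h3
  exact h3

theorem UeV_aux {n : ℕ} {T : ℝ} (f : ZZ n × TI T → ℝ) (c d : Ix n) (p : ZZ n × TI T) :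
    Dl f (XU (sk c d)) p = ∑ a, ∑ b, (p.1.2 : Ix n → Ix n → ℝ) a c * (p.1.2 : Ix n → Ix n → ℝ) b d *
      Dl f (XV (sk a b)) p := by
  obtain ⟨w, hw⟩ : ∃ w : Ix n → Ix n → ℝ, w = (p.1.2 : Ix n → Ix n → ℝ) := ⟨_, rfl⟩
  have hO : w ∈ OO n := by rw [hw]; exact p.1.2.2
  have e1 : ∑ a, ∑ b, (p.1.2 : Ix n → Ix n → ℝ) a c * (p.1.2 : Ix n → Ix n → ℝ) b d *
      Dl f (XV (sk a b)) p = Dl f (XV (∑ a, ∑ b, (w a c * w b d) • sk a b)) p := by
    simp only [map_smul, map_sum, Pi.smul_apply, Finset.sum_apply, smul_eq_mul, hw]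
  rw [e1]
  refine Dl_congr f _ _ p (fld_XU (emW p) _ _ fun a b => ?_)
  have h5 : (emW p).2.1 = w := by rw [hw]; rfl
  rw [h5, mul_sk]
  have h1 : ∀ e, (∑ a', ∑ b', (w a' c * w b' d) • sk a' b') a e * w e b =
      ∑ a', ∑ b', (w a' c * w b' d) * (sk a' b' a e * w e b) := by
    intro e
    simp only [Pi.smul_apply, Finset.sum_apply, smul_eq_mul, Finset.sum_mul]
    exact Finset.sum_congr rfl fun a' _ => Finset.sum_congr rfl fun b' _ => by ring
  have h2 : ∑ e, ∑ a', ∑ b', (w a' c * w b' d) * (sk a' b' a e * w e b) =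
      ∑ a', ∑ b', (w a' c * w b' d) * ∑ e, sk a' b' a e * w e b := by
    rw [Finset.sum_comm]
    refine Finset.sum_congr rfl fun a' _ => ?_
    rw [Finset.sum_comm]
    exact Finset.sum_congr rfl fun b' _ => by rw [Finset.mul_sum]
  have h3 : ∀ a' b', (w a' c * w b' d) * ∑ e, sk a' b' a e * w e b =
      (if b' = a then (1 : ℝ) else 0) * ((w a' c * w a' b) * w b' d) -
        (if a' = a then (1 : ℝ) else 0) * (w a' c * (w b' d * w b' b)) := by
    intro a' b'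
    rw [sk_mul]
    ring
  rw [Finset.sum_congr rfl fun e _ => h1 e, h2, Finset.sum_congr rfl fun a' _ =>
    Finset.sum_congr rfl fun b' _ => h3 a' b']
  simp only [Finset.sum_sub_distrib, sum_dl', ← Finset.mul_sum, ← Finset.sum_mul]
  rw [utu_aux hO, utu_aux hO, mul_comm (w a c)]

section
variable {h2 : Goal_MA2} {h4 : Goal_MA4} {h5 : Goal_MA5} {n : ℕ} {T : ℝ}

theorem bext {f g : (mdl h2 h4 h5 n T).B} (h : ∀ p, (f : BB h2 n T).1 p = (g : BB h2 n T).1 p) :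
    f = g := Subtype.ext (funext h)

theorem bext' {f g : (mdl h2 h4 h5 n T).B}
    (h : ∀ z t, (mdl h2 h4 h5 n T).ev z t f = (mdl h2 h4 h5 n T).ev z t g) : f = g :=
  Subtype.ext (funext fun p => h p.1 p.2)

theorem cf_aux (f : (mdl h2 h4 h5 n T).B) (c d : Ix n → Ix n → ℝ) :
    ((mdl h2 h4 h5 n T).toBA.cf c d f : BB h2 n T).1 =
      derf (∑ i, ∑ j, c i j • sk i j) (fun _ _ => 0) (∑ i, ∑ j, d i j • sk i j) 0
        (f : BB h2 n T).1 := by
  have h1 : ((mdl h2 h4 h5 n T).toBA.cf c d f : BB h2 n T).1 =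
      ∑ i, ∑ j, (c i j • Dl (f : BB h2 n T).1 (XL (sk i j)) +
        d i j • Dl (f : BB h2 n T).1 (XU (sk i j))) := by
    have h3 : ∀ g : Ix n → Ix n → BB h2 n T, ((∑ i, ∑ j, g i j : BB h2 n T)).1 =
        ∑ i, ∑ j, (g i j).1 := by
      intro g
      rw [← Subalgebra.coe_val, map_sum]
      simp only [map_sum]
    exact h3 _
  have h4 : derf (∑ i, ∑ j, c i j • sk i j) (fun _ _ => 0) (∑ i, ∑ j, d i j • sk i j) 0
      (f : BB h2 n T).1 = Dl (f : BB h2 n T).1 (XL (∑ i, ∑ j, c i j • sk i j) +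
        XU (∑ i, ∑ j, d i j • sk i j)) := by
    rw [Dl_apply]
    congr 1
    refine Prod.ext ?_ (Prod.ext ?_ (Prod.ext ?_ ?_))
    · exact (add_zero _).symm
    · exact (add_zero _).symm
    · exact (zero_add _).symm
    · exact (add_zero _).symm
  rw [h1, h4, map_add]
  simp only [map_sum, map_smul, Finset.sum_add_distrib]

theorem sum_Sk (c : Ix n → Ix n → ℝ) : Sk (∑ i, ∑ j, c i j • sk i j) := by
  intro a b
  simp only [Finset.sum_apply, Pi.smul_apply, smul_eq_mul]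
  rw [← Finset.sum_neg_distrib]
  refine Finset.sum_congr rfl fun i _ => ?_
  rw [← Finset.sum_neg_distrib]
  refine Finset.sum_congr rfl fun j _ => ?_
  rw [sk_Sk i j a b]
  ring

theorem mdl_ax (h3 : Goal_MA3) : (mdl h2 h4 h5 n T).toBA.Ax where
  ext f g h := bext fun p => h p.1 p.2
  cont f := (h4 n T (f : BB h2 n T).1 (f : BB h2 n T).2).1
  tt_ev _ _ := rfl
  tt_D := bext fun p => (h5 n T).2.1.2 _ _ _ 1 zero_Sk zero_Sk zero_Sk p
  tt_L i j := bext fun p => (h5 n T).2.1.2 _ _ _ 0 (sk_Sk i j) zero_Sk zero_Sk p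
  tt_U i j := bext fun p => (h5 n T).2.1.2 _ _ _ 0 zero_Sk zero_Sk (sk_Sk i j) p
  tt_V i j := bext fun p => (h5 n T).2.1.2 _ _ _ 0 zero_Sk (sk_Sk i j) zero_Sk p
  time f z t := by
    refine (h4 n T (f : BB h2 n T).1 (f : BB h2 n T).2).2.2.1 z t _ fun s => ?_
    unfold BA.val
    rw [dif_pos s.2]
    rfl
  min f z t hf c d := by
    have h := (h4 n T (f : BB h2 n T).1 (f : BB h2 n T).2).2.1 z t hf _ _ _ (sum_Sk c) zero_Sk
      (sum_Sk d)
    have e1 := cf_aux f c d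
    have e2 := cf_aux ((mdl h2 h4 h5 n T).toBA.cf c d f) c d
    rw [e1] at e2
    refine ⟨(congrFun e1 (z, t)).trans h.1, ?_⟩
    exact h.2.trans (congrFun e2 (z, t)).ge
  comp φ O hO hφ f hf := ⟨(⟨_, (h2 n T).2.2.2.1 φ O hO hφ (f : BB h2 n T).1 (f : BB h2 n T).2
    fun p => hf p.1 p.2⟩ : BB h2 n T), fun _ _ => rfl⟩
  chain φ O hO hφ f g hf hg z t := by
    have e : (g : BB h2 n T).1 = fun p => φ ((f : BB h2 n T).1 p) := funext fun p => hg p.1 p.2
    have key : ∀ (η ζ ξ : Ix n → Ix n → ℝ) (d : ℝ), Sk η → Sk ζ → Sk ξ →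
        derf η ζ ξ d (g : BB h2 n T).1 (z, t) =
          deriv φ ((f : BB h2 n T).1 (z, t)) * derf η ζ ξ d (f : BB h2 n T).1 (z, t) := by
      intro η ζ ξ d hη hζ hξ
      rw [e]
      exact ((h2 n T).2.2.2.2.1 η ζ ξ d hη hζ hξ).2.2.2 φ O hO hφ (f : BB h2 n T).1
        (f : BB h2 n T).2 (fun p => hf p.1 p.2) (z, t)
    exact ⟨fun i j => key _ _ _ 0 (sk_Sk i j) zero_Sk zero_Sk,
      fun i j => key _ _ _ 0 zero_Sk zero_Sk (sk_Sk i j),
      fun i j => key _ _ _ 0 zero_Sk (sk_Sk i j) zero_Sk, key _ _ _ 1 zero_Sk zero_Sk zero_Sk⟩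
  Lanti i j f := bext fun p => congrFun (anti_aux (f : BB h2 n T).1 i j XL) p
  Uanti i j f := bext fun p => congrFun (anti_aux (f : BB h2 n T).1 i j XU) p
  Vanti i j f := bext fun p => congrFun (anti_aux (f : BB h2 n T).1 i j XV) p
  LL i j k l f := by
    rw [dl_mul, dl_mul, dl_mul, dl_mul]
    exact bext fun p => congrFun (LL_aux h3 (f : BB h2 n T).2 i j k l) p
  VV i j k l f := by
    rw [dl_mul, dl_mul, dl_mul, dl_mul]
    exact bext fun p => congrFun (VV_aux h3 (f : BB h2 n T).2 i j k l) p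
  UU i j k l f := by
    rw [dl_mul, dl_mul, dl_mul, dl_mul]
    exact bext fun p => congrFun (UU_aux h3 (f : BB h2 n T).2 i j k l) p
  LU i j k l f := bext fun p => congrFun (der_comm h3 0 0 (sk_Sk i j) zero_Sk zero_Sk zero_Sk
    zero_Sk (sk_Sk k l) (f : BB h2 n T).2 (cz _) (fun _ _ => zz) (zc _)) p
  LV i j k l f := bext fun p => congrFun (der_comm h3 0 0 (sk_Sk i j) zero_Sk zero_Sk zero_Sk
    (sk_Sk k l) zero_Sk (f : BB h2 n T).2 (cz _) (zc _) (fun _ _ => zz)) p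
  UV i j k l f := bext fun p => congrFun (der_comm h3 0 0 zero_Sk zero_Sk (sk_Sk i j) zero_Sk
    (sk_Sk k l) zero_Sk (f : BB h2 n T).2 (fun _ _ => zz) (zc _) (cz _)) p
  DL i j f := bext fun p => congrFun (der_comm h3 1 0 zero_Sk zero_Sk zero_Sk (sk_Sk i j)
    zero_Sk zero_Sk (f : BB h2 n T).2 (zc _) (fun _ _ => zz) (fun _ _ => zz)) p
  DU i j f := bext fun p => congrFun (der_comm h3 1 0 zero_Sk zero_Sk zero_Sk zero_Sk zero_Sk
    (sk_Sk i j) (f : BB h2 n T).2 (fun _ _ => zz) (fun _ _ => zz) (zc _)) p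
  DV i j f := bext fun p => congrFun (der_comm h3 1 0 zero_Sk zero_Sk zero_Sk zero_Sk
    (sk_Sk i j) zero_Sk (f : BB h2 n T).2 (fun _ _ => zz) (zc _) (fun _ _ => zz)) p
  Vu a b c d := by
    rw [dl_mul, dl_mul]
    refine bext fun p => (((h5 n T).1 c d).2 _ _ _ 0 zero_Sk (sk_Sk a b) zero_Sk p).trans ?_
    refine Eq.trans ?_ (sk_mul a b c (fun e => (p.1.2 : Ix n → Ix n → ℝ) e d))
    exact Finset.sum_congr rfl fun e _ => by rw [mul_zero, add_zero]
  Uu c d b e := by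
    rw [dl_mul, dl_mul]
    refine bext fun p => (((h5 n T).1 b e).2 _ _ _ 0 zero_Sk zero_Sk (sk_Sk c d) p).trans ?_
    refine Eq.trans ?_ (mul_sk c d e (fun k => (p.1.2 : Ix n → Ix n → ℝ) b k))
    exact Finset.sum_congr rfl fun k _ => by rw [zero_mul, zero_add]
  Lu i j a b := bext fun p => (((h5 n T).1 a b).2 _ _ _ 0 (sk_Sk i j) zero_Sk zero_Sk p).trans
    (Finset.sum_eq_zero fun c _ => by rw [zero_mul, mul_zero, add_zero])
  Du a b := bext fun p => (((h5 n T).1 a b).2 _ _ _ 1 zero_Sk zero_Sk zero_Sk p).trans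
    (Finset.sum_eq_zero fun c _ => by rw [zero_mul, mul_zero, add_zero])
  Ln i j k := by
    rw [dl_mul, dl_mul]
    refine bext fun p => (((h5 n T).2.2.1 k).2 _ _ _ 0 (sk_Sk i j) zero_Sk zero_Sk p).trans ?_
    exact sk_mul i j k (fun l => (p.1.1 : EE n) l)
  Un i j k := bext fun p => (((h5 n T).2.2.1 k).2 _ _ _ 0 zero_Sk zero_Sk (sk_Sk i j) p).trans
    (Finset.sum_eq_zero fun c _ => by rw [zero_mul])
  Vn i j k := bext fun p => (((h5 n T).2.2.1 k).2 _ _ _ 0 zero_Sk (sk_Sk i j) zero_Sk p).trans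
    (Finset.sum_eq_zero fun c _ => by rw [zero_mul])
  Dn k := bext fun p => (((h5 n T).2.2.1 k).2 _ _ _ 1 zero_Sk zero_Sk zero_Sk p).trans
    (Finset.sum_eq_zero fun c _ => by rw [zero_mul])
  nn := by
    refine bext' fun z t => ?_
    rw [map_sum, map_one]
    simp only [map_pow]
    exact sum_sq z
  Le i j f := by
    rw [e_apply, e_apply]
    refine bext' fun z t => ?_
    rw [map_sub, map_mul, map_mul, map_sum, map_sum]
    simp only [map_mul]
    exact Le_aux (f : BB h2 n T).1 i j (z, t)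
  uut a b := by
    refine bext' fun z t => ?_
    rw [map_sum]
    simp only [map_mul]
    refine (z.2.2 a b).trans ?_
    unfold BA.dl
    split_ifs
    · rw [map_one]
    · rw [map_zero]
  utu a b := by
    refine bext' fun z t => ?_
    rw [map_sum]
    simp only [map_mul]
    refine (utu_aux z.2.2 a b).trans ?_
    unfold BA.dl
    split_ifs
    · rw [map_one]
    · rw [map_zero]
  UeV c d f := by
    refine bext' fun z t => ?_
    simp only [map_sum, map_mul]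
    exact UeV_aux (f : BB h2 n T).1 c d (z, t)

end

/-- the model exists -/
theorem goal_MOD (hMA2 : Goal_MA2) (hMA3 : Goal_MA3) (hMA4 : Goal_MA4) (hMA5 : Goal_MA5) :
    Goal_MOD := by
  intro n T _
  refine ⟨mdl hMA2 hMA4 hMA5 n T, ?_⟩
  have hn : ∀ z : ZZ n, ‖(z.1 : EE n)‖ = 1 := fun z => by
    have := z.1.2
    rwa [mem_sphere_zero_iff_norm] at this
  exact
    { ax := mdl_ax hMA3
      ptn := hn
      frO := fun z => z.2.2
      ptc := continuous_subtype_val.comp continuous_fst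
      frc := continuous_subtype_val.comp continuous_snd
      surj := fun x w hx hw => ⟨(⟨x, mem_sphere_zero_iff_norm.2 hx⟩, ⟨w, hw⟩), rfl, rfl⟩
      inj := fun z z' h h' => Prod.ext (Subtype.ext h) (Subtype.ext h')
      uev := fun _ _ _ _ => rfl
      nev := fun z t i => by
        change (z.1 : EE n) i = (z.1 : EE n) i / ‖(z.1 : EE n)‖
        rw [hn z, div_one]
      emb := fun v hv => by
        obtain ⟨h1, h2⟩ := (hMA5 n T).2.2.2.1 v hv
        refine ⟨(⟨_, h1⟩ : BB hMA2 n T), ⟨fun k l => ?_, fun k l => ?_⟩, fun _ _ => rfl⟩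
        · exact bext fun p => h2 _ _ zero_Sk (sk_Sk k l) p
        · exact bext fun p => h2 _ _ (sk_Sk k l) zero_Sk p
      res := fun w hw f => by
        obtain ⟨v, hv, h⟩ := (hMA5 n T).2.2.2.2.1 w hw (f : BB hMA2 n T).1 (f : BB hMA2 n T).2
        exact ⟨v, hv, fun z t hz => h (z, t) hz⟩
      resL := fun w hw f v hv hf i j z t hz =>
        ((hMA5 n T).2.2.2.2.2 w hw (f : BB hMA2 n T).1 (f : BB hMA2 n T).2 v hv
          (fun p hp => hf p.1 p.2 hp)).1 i j (z, t) hz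
      resD := fun w hw f v v' hv hf hd z t hz =>
        ((hMA5 n T).2.2.2.2.2 w hw (f : BB hMA2 n T).1 (f : BB hMA2 n T).2 v hv
          (fun p hp => hf p.1 p.2 hp)).2 v' hd (z, t) hz
      frz := fun f t0 => by
        obtain ⟨h1, h2⟩ := (hMA4 n T (f : BB hMA2 n T).1 (f : BB hMA2 n T).2).2.2.2.1 t0
        refine ⟨(⟨_, h1⟩ : BB hMA2 n T), fun _ _ => rfl, fun i j z t => ?_, fun i j z t => ?_,
          fun i j z t => ?_, ?_⟩
        · exact h2 _ _ _ 0 (sk_Sk i j) zero_Sk zero_Sk (z, t)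
        · exact h2 _ _ _ 0 zero_Sk zero_Sk (sk_Sk i j) (z, t)
        · exact h2 _ _ _ 0 zero_Sk (sk_Sk i j) zero_Sk (z, t)
        · exact bext fun p => (h2 _ _ _ 1 zero_Sk zero_Sk zero_Sk p).trans
            (congrFun (derf_zero (f : BB hMA2 n T).1) (p.1, t0)) }

end Pool.Agent.Helper49.RFn
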