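import Pool.Agent.Helper47.RFn.Alg

/-!
# Project RFn, packet BD: the cones consist of tensors controlled by the scalar curvature
-/

namespace Pool.Agent.Helper47.RFn

open Finset

theorem bd_one {n : ℕ} (a b : Fin n) : |(1 : M2 n) a b| ≤ 1 := by
  rw [Matrix.one_apply]
  split_ifs
  · simp
  · simp

theorem bd_wdg {n : ℕ} (A : M2 n) {m : ℝ} (hA : ∀ a b, |A a b| ≤ m)
    (a b c d : Fin n) : |wdg A 1 a b c d| ≤ 2 * m := by
  have hm : 0 ≤ m := (abs_nonneg _).trans (hA a b)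
  have hp : ∀ a b c d : Fin n, |A a b * (1 : M2 n) c d| ≤ m := by
    intro a b c d
    rw [abs_mul]
    calc |A a b| * |(1 : M2 n) c d| ≤ m * 1 :=
          mul_le_mul (hA a b) (bd_one c d) (abs_nonneg _) hm
      _ = m := mul_one m
  have h1 := abs_le.mp (hp a c b d)
  have h2 := abs_le.mp (hp a d b c)
  have h3 := abs_le.mp (hp b d a c)
  have h4 := abs_le.mp (hp b c a d)
  have e : wdg A 1 a b c d = (A a c * (1 : M2 n) b d - A a d * (1 : M2 n) b c
      + A b d * (1 : M2 n) a c - A b c * (1 : M2 n) a d) / 2 := by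
    unfold wdg
    ring
  rw [e, abs_le]
  constructor <;> linarith [h1.1, h1.2, h2.1, h2.2, h3.1, h3.2, h4.1, h4.2]

theorem bd_wdg1 {n : ℕ} (a b c d : Fin n) : |Id4 n a b c d| ≤ 2 := by
  have := bd_wdg (1 : M2 n) (m := 1) bd_one a b c d
  unfold Id4
  linarith

theorem goal_BD (hCB : Goal_CB) (hLI : Goal_LI) (_hLN : Goal_LN) : Goal_BD := by
  intro n hn
  have hn2 : 2 ≤ n := by omega
  have hnr : (4 : ℝ) ≤ n := by exact_mod_cast hn
  refine ⟨(n : ℝ) + 2 + 2 * ((n : ℝ) ^ 2 + 1), by positivity, ?_⟩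
  intro a b p R ha hb hb2 hK
  obtain ⟨-, hC, -⟩ := hK
  obtain ⟨hl, hS, -⟩ := hCB n hn2 (elli a b R) hC
  obtain ⟨hinv, -⟩ := hLI n hn2 a b ha hb R
  obtain ⟨-, -, hlam, -⟩ := hLI n hn2 a b ha hb (elli a b R)
  rw [hinv] at hlam
  set S := elli a b R with hSdef
  have hlR : 0 ≤ lam R := by
    rw [hlam]
    apply mul_nonneg _ hl
    have : 0 ≤ 2 * ((n : ℝ) - 1) * a := by
      apply mul_nonneg _ ha
      linarith
    linarith
  have hSR : lam S ≤ lam R := by
    rw [hlam]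
    have : 0 ≤ 2 * ((n : ℝ) - 1) * a * lam S := by
      apply mul_nonneg _ hl
      apply mul_nonneg _ ha
      linarith
    linarith
  have haR : 2 * a * lam S ≤ lam R := by
    rw [hlam]
    have h1 : 0 ≤ a * lam S := mul_nonneg ha hl
    have h2 : 0 ≤ ((n : ℝ) - 2) * (a * lam S) := mul_nonneg (by linarith) h1
    nlinarith
  refine ⟨hlR, ?_⟩
  intro i j k l
  have hRic : ∀ x y, |Ric S x y| ≤ (n : ℝ) ^ 2 * lam S := by
    intro x y
    unfold Ric
    calc |∑ e, S x e y e| ≤ ∑ e, |S x e y e| := Finset.abs_sum_le_sum_abs _ _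
      _ ≤ ∑ e : Fin n, (n : ℝ) * lam S := Finset.sum_le_sum (fun e _ => hS x e y e)
      _ = (n : ℝ) ^ 2 * lam S := by
          rw [Finset.sum_const, Finset.card_univ, Fintype.card_fin, nsmul_eq_mul]
          ring
  have hRic0 : ∀ x y, |Ric0 S x y| ≤ ((n : ℝ) ^ 2 + 1) * lam S := by
    intro x y
    have e : Ric0 S x y = Ric S x y - lam S * (1 : M2 n) x y := rfl
    rw [e]
    have h1 := hRic x y
    have h2 : |lam S * (1 : M2 n) x y| ≤ lam S := by
      rw [abs_mul, abs_of_nonneg hl]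
      calc lam S * |(1 : M2 n) x y| ≤ lam S * 1 := mul_le_mul_of_nonneg_left (bd_one x y) hl
        _ = lam S := mul_one _
    calc |Ric S x y - lam S * (1 : M2 n) x y| ≤ |Ric S x y| + |lam S * (1 : M2 n) x y| :=
          abs_sub _ _
      _ ≤ _ := by linarith
  have hR : R i j k l = S i j k l + (2 * a * lam S) * Id4 n i j k l
      + (2 * b) * wdg (Ric0 S) 1 i j k l := by
    have h := congrFun (congrFun (congrFun (congrFun hinv i) j) k) l
    rw [← h]
    rfl
  rw [hR]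
  have h1 := hS i j k l
  have h2 : |(2 * a * lam S) * Id4 n i j k l| ≤ 2 * lam R := by
    rw [abs_mul, abs_of_nonneg (by positivity)]
    calc 2 * a * lam S * |Id4 n i j k l| ≤ (2 * a * lam S) * 2 :=
          mul_le_mul_of_nonneg_left (bd_wdg1 i j k l) (by positivity)
      _ ≤ 2 * lam R := by linarith
  have h3 : |(2 * b) * wdg (Ric0 S) 1 i j k l| ≤ 2 * (((n : ℝ) ^ 2 + 1) * lam S) := by
    rw [abs_mul, abs_of_nonneg (by positivity)]
    have h4 := bd_wdg (Ric0 S) hRic0 i j k l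
    have h5 : 0 ≤ |wdg (Ric0 S) 1 i j k l| := abs_nonneg _
    calc 2 * b * |wdg (Ric0 S) 1 i j k l| ≤ 1 * |wdg (Ric0 S) 1 i j k l| :=
          mul_le_mul_of_nonneg_right (by linarith) h5
      _ ≤ _ := by linarith
  have h6 : ((n : ℝ) + 2 * ((n : ℝ) ^ 2 + 1)) * lam S
      ≤ ((n : ℝ) + 2 * ((n : ℝ) ^ 2 + 1)) * lam R :=
    mul_le_mul_of_nonneg_left hSR (by positivity)
  calc |S i j k l + (2 * a * lam S) * Id4 n i j k l + (2 * b) * wdg (Ric0 S) 1 i j k l|
      ≤ |S i j k l| + |(2 * a * lam S) * Id4 n i j k l|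
        + |(2 * b) * wdg (Ric0 S) 1 i j k l| := abs_add_three _ _ _
    _ ≤ _ := by linarith

end Pool.Agent.Helper47.RFn
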