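import Pool.Agent.Helper47.RFn.Alg

/-!
# Project RFn, packet EN: the end of the chain of cones
-/

namespace Pool.Agent.Helper47.RFn

open Finset

theorem en_one {n : ℕ} (a b : Fin n) : |(1 : M2 n) a b| ≤ 1 := by
  rw [Matrix.one_apply]
  split_ifs
  · simp
  · simp

theorem en_wdg {n : ℕ} (A : M2 n) {m : ℝ} (hA : ∀ a b, |A a b| ≤ m)
    (a b c d : Fin n) : |wdg A 1 a b c d| ≤ 2 * m := by
  have hm : 0 ≤ m := (abs_nonneg _).trans (hA a b)
  have hp : ∀ a b c d : Fin n, |A a b * (1 : M2 n) c d| ≤ m := by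
    intro a b c d
    rw [abs_mul]
    calc |A a b| * |(1 : M2 n) c d| ≤ m * 1 :=
          mul_le_mul (hA a b) (en_one c d) (abs_nonneg _) hm
      _ = m := mul_one m
  have h1 := abs_le.mp (hp a c b d)
  have h2 := abs_le.mp (hp a d b c)
  have h3 := abs_le.mp (hp b d a c)
  have h4 := abs_le.mp (hp b c a d)
  have e : wdg A 1 a b c d = (A a c * (1 : M2 n) b d - A a d * (1 : M2 n) b c
      + A b d * (1 : M2 n) a c - A b c * (1 : M2 n) a d) / 2 := by
    unfold wdg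
    ring
  rw [e, abs_le]
  constructor <;> linarith [h1.1, h1.2, h2.1, h2.2, h3.1, h3.2, h4.1, h4.2]

theorem en_wdg1 {n : ℕ} (a b c d : Fin n) : |Id4 n a b c d| ≤ 2 := by
  have := en_wdg (1 : M2 n) (m := 1) en_one a b c d
  unfold Id4
  linarith

theorem goal_EN (hCB : Goal_CB) (hLI : Goal_LI) (_hLN : Goal_LN) : Goal_EN := by
  intro n hn ε hε
  have hn2 : 2 ≤ n := by omega
  have hnr : (4 : ℝ) ≤ n := by exact_mod_cast hn
  have hCpos : 0 < (n : ℝ) + 2 * ((n : ℝ) ^ 2 + 1) + 2 := by positivity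
  refine ⟨max (1 / 2) (((n : ℝ) + 2 * ((n : ℝ) ^ 2 + 1) + 2) / ε), le_max_left _ _, ?_⟩
  intro R hK
  set a1 := max (1 / 2) (((n : ℝ) + 2 * ((n : ℝ) ^ 2 + 1) + 2) / ε) with ha1
  have ha : 0 ≤ a1 := le_trans (by norm_num) (le_max_left _ _)
  have haC : ((n : ℝ) + 2 * ((n : ℝ) ^ 2 + 1) + 2) / ε ≤ a1 := le_max_right _ _
  have hb : (0 : ℝ) ≤ 1 / 2 := by norm_num
  obtain ⟨-, hC, -⟩ := hK
  obtain ⟨hl, hS, -⟩ := hCB n hn2 (elli a1 (1 / 2) R) hC
  obtain ⟨hinv, -⟩ := hLI n hn2 a1 (1 / 2) ha hb R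
  obtain ⟨-, -, hlam, -⟩ := hLI n hn2 a1 (1 / 2) ha hb (elli a1 (1 / 2) R)
  rw [hinv] at hlam
  set S := elli a1 (1 / 2) R with hSdef
  have hN : a1 ≤ 1 + 2 * ((n : ℝ) - 1) * a1 := by nlinarith
  have hlR : 0 ≤ lam R := by
    rw [hlam]
    exact mul_nonneg (ha.trans hN) hl
  refine ⟨hlR, ?_⟩
  intro i j k l
  have hRic : ∀ x y, |Ric S x y| ≤ (n : ℝ) ^ 2 * lam S := by
    intro x y
    unfold Ric
    calc |∑ e, S x e y e| ≤ ∑ e, |S x e y e| := Finset.abs_sum_le_sum_abs _ _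
      _ ≤ ∑ e : Fin n, (n : ℝ) * lam S := Finset.sum_le_sum (fun e _ => hS x e y e)
      _ = (n : ℝ) ^ 2 * lam S := by
          rw [Finset.sum_const, Finset.card_univ, Fintype.card_fin, nsmul_eq_mul]
          ring
  have hRic0 : ∀ x y, |Ric0 S x y| ≤ ((n : ℝ) ^ 2 + 1) * lam S := by
    intro x y
    have e : Ric0 S x y = Ric S x y - lam S * (1 : M2 n) x y := rfl
    rw [e]
    have h1 := hRic x y
    have h2 : |lam S * (1 : M2 n) x y| ≤ lam S := by
      rw [abs_mul, abs_of_nonneg hl]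
      calc lam S * |(1 : M2 n) x y| ≤ lam S * 1 := mul_le_mul_of_nonneg_left (en_one x y) hl
        _ = lam S := mul_one _
    calc |Ric S x y - lam S * (1 : M2 n) x y| ≤ |Ric S x y| + |lam S * (1 : M2 n) x y| :=
          abs_sub _ _
      _ ≤ _ := by linarith
  have hR : R i j k l = S i j k l + (2 * a1 * lam S) * Id4 n i j k l
      + (2 * (1 / 2)) * wdg (Ric0 S) 1 i j k l := by
    have h := congrFun (congrFun (congrFun (congrFun hinv i) j) k) l
    rw [← h]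
    rfl
  have hn1 : (0 : ℝ) < (n : ℝ) - 1 := by linarith
  have hdiff : R i j k l - lam R / ((n : ℝ) - 1) * Id4 n i j k l
      = S i j k l + wdg (Ric0 S) 1 i j k l - lam S / ((n : ℝ) - 1) * Id4 n i j k l := by
    rw [hR, hlam]
    field_simp
    ring
  rw [hdiff]
  have h1 := hS i j k l
  have h2 : |lam S / ((n : ℝ) - 1) * Id4 n i j k l| ≤ 2 * lam S := by
    rw [abs_mul, abs_of_nonneg (by positivity)]
    calc lam S / ((n : ℝ) - 1) * |Id4 n i j k l| ≤ lam S * 2 := by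
          apply mul_le_mul _ (en_wdg1 i j k l) (abs_nonneg _) hl
          apply div_le_self hl
          linarith
      _ = 2 * lam S := by ring
  have h4 := en_wdg (Ric0 S) hRic0 i j k l
  calc |S i j k l + wdg (Ric0 S) 1 i j k l - lam S / ((n : ℝ) - 1) * Id4 n i j k l|
      ≤ |S i j k l + wdg (Ric0 S) 1 i j k l| + |lam S / ((n : ℝ) - 1) * Id4 n i j k l| :=
        abs_sub _ _
    _ ≤ |S i j k l| + |wdg (Ric0 S) 1 i j k l| + |lam S / ((n : ℝ) - 1) * Id4 n i j k l| := by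
        linarith [abs_add_le (S i j k l) (wdg (Ric0 S) 1 i j k l)]
    _ ≤ ((n : ℝ) + 2 * ((n : ℝ) ^ 2 + 1) + 2) * lam S := by linarith
    _ ≤ (ε * (1 + 2 * ((n : ℝ) - 1) * a1)) * lam S := by
        apply mul_le_mul_of_nonneg_right _ hl
        rw [div_le_iff₀ hε] at haC
        nlinarith
    _ = ε * lam R := by
        rw [hlam]
        ring

end Pool.Agent.Helper47.RFn
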